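import Pool.Agent.Q93.Asym.EssFinal

/-!
If the essential spectrum of an `L`-asymptotic limit of a power bounded operator is `{t}` with
`t > 0`, then `t = 1`.
-/

namespace Pool.Agent.Results.MP_fdf6c3_an.EssSpectrumOne

open Q93.Asym
open scoped BoundedContinuousFunction

/-- **Let `L` be a Banach limit and let `A` be the `L`-asymptotic limit of a power bounded operator
`T` on a complex Hilbert space `H`. If the essential spectrum of `A` is `{t}` with `t > 0`, then
`t = 1`.** -/
theorem result (H : Type*) [NormedAddCommGroup H] [InnerProductSpace ℂ H] [CompleteSpace H]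
    (L : (ℕ →ᵇ ℂ) →ₗ[ℂ] ℂ) (hL : IsBanachLimit L)
    (T : H →L[ℂ] H) (hT : PowerBounded T) (A : H →L[ℂ] H) (hA : IsAsymptoticLimit L T A)
    (t : ℝ) (ht : 0 < t) (hess : essSpectrum A = {(t : ℂ)}) : t = 1 :=
  eq_one_of_essSpectrum hL hT hA ht hess

end Pool.Agent.Results.MP_fdf6c3_an.EssSpectrumOne
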